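import Pool.Agent.ATT.Stmts

/-!
# ATT, row OUT: what the end of the attempt gives
-/

set_option autoImplicit false

open scoped ENNReal BigOperators Topology NNReal Matrix

noncomputable section

namespace Pool.Agent.ATT.H26

open Pool.Agent.ANP (Cfg gm Att)

/-- Minkowski in `ℓ²(S, κ)` -/
theorem mink {X : Type} (S : Finset X) (κ : X → ℝ) (hκ : ∀ y ∈ S, 0 ≤ κ y) (a b : X → ℂ) :
    Real.sqrt (∑ y ∈ S, κ y * ‖a y + b y‖ ^ 2) ≤
      Real.sqrt (∑ y ∈ S, κ y * ‖a y‖ ^ 2) + Real.sqrt (∑ y ∈ S, κ y * ‖b y‖ ^ 2) := by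
  have hA : 0 ≤ ∑ y ∈ S, κ y * ‖a y‖ ^ 2 :=
    Finset.sum_nonneg fun y hy => mul_nonneg (hκ y hy) (by positivity)
  have hB : 0 ≤ ∑ y ∈ S, κ y * ‖b y‖ ^ 2 :=
    Finset.sum_nonneg fun y hy => mul_nonneg (hκ y hy) (by positivity)
  have hcs : ∑ y ∈ S, κ y * (‖a y‖ * ‖b y‖) ≤
      Real.sqrt (∑ y ∈ S, κ y * ‖a y‖ ^ 2) * Real.sqrt (∑ y ∈ S, κ y * ‖b y‖ ^ 2) := by
    have h := Real.sum_mul_le_sqrt_mul_sqrt S (fun y => Real.sqrt (κ y) * ‖a y‖)
      (fun y => Real.sqrt (κ y) * ‖b y‖)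
    have e1 : ∑ y ∈ S, Real.sqrt (κ y) * ‖a y‖ * (Real.sqrt (κ y) * ‖b y‖) =
        ∑ y ∈ S, κ y * (‖a y‖ * ‖b y‖) := by
      refine Finset.sum_congr rfl fun y hy => ?_
      calc Real.sqrt (κ y) * ‖a y‖ * (Real.sqrt (κ y) * ‖b y‖) =
            (Real.sqrt (κ y) * Real.sqrt (κ y)) * (‖a y‖ * ‖b y‖) := by ring
        _ = _ := by rw [Real.mul_self_sqrt (hκ y hy)]
    have e2 : ∑ y ∈ S, (Real.sqrt (κ y) * ‖a y‖) ^ 2 = ∑ y ∈ S, κ y * ‖a y‖ ^ 2 := by
      refine Finset.sum_congr rfl fun y hy => ?_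
      rw [mul_pow, Real.sq_sqrt (hκ y hy)]
    have e3 : ∑ y ∈ S, (Real.sqrt (κ y) * ‖b y‖) ^ 2 = ∑ y ∈ S, κ y * ‖b y‖ ^ 2 := by
      refine Finset.sum_congr rfl fun y hy => ?_
      rw [mul_pow, Real.sq_sqrt (hκ y hy)]
    rw [e1, e2, e3] at h
    exact h
  apply Real.sqrt_le_iff.2
  refine ⟨by positivity, ?_⟩
  calc ∑ y ∈ S, κ y * ‖a y + b y‖ ^ 2
      ≤ ∑ y ∈ S, (κ y * ‖a y‖ ^ 2 + 2 * (κ y * (‖a y‖ * ‖b y‖)) + κ y * ‖b y‖ ^ 2) := by
        refine Finset.sum_le_sum fun y hy => ?_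
        have h1 : ‖a y + b y‖ ^ 2 ≤ (‖a y‖ + ‖b y‖) ^ 2 := by
          have := norm_add_le (a y) (b y)
          gcongr
        calc κ y * ‖a y + b y‖ ^ 2 ≤ κ y * (‖a y‖ + ‖b y‖) ^ 2 :=
              mul_le_mul_of_nonneg_left h1 (hκ y hy)
          _ = _ := by ring
    _ = ∑ y ∈ S, κ y * ‖a y‖ ^ 2 + 2 * ∑ y ∈ S, κ y * (‖a y‖ * ‖b y‖) +
        ∑ y ∈ S, κ y * ‖b y‖ ^ 2 := by
        rw [Finset.sum_add_distrib, Finset.sum_add_distrib, Finset.mul_sum]
    _ ≤ Real.sqrt (∑ y ∈ S, κ y * ‖a y‖ ^ 2) ^ 2 +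
        2 * (Real.sqrt (∑ y ∈ S, κ y * ‖a y‖ ^ 2) * Real.sqrt (∑ y ∈ S, κ y * ‖b y‖ ^ 2)) +
        Real.sqrt (∑ y ∈ S, κ y * ‖b y‖ ^ 2) ^ 2 := by
        rw [Real.sq_sqrt hA, Real.sq_sqrt hB]
        linarith
    _ = _ := by ring

theorem out (peb : PebStmt) : OutStmt := by
  intro X _ _ A κs g₀ Λ Lc hK kI H T Go hS hU
  obtain ⟨he0, heη, hv, hg0, ht1, hdT, hδ, hgb, hlm, hεm, hhK, hlM, hεM⟩ := H.pos
  have hal : ∀ x ∈ A.al T, x ∈ A.R ∧ T.s x ≠ 0 := fun x hx => by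
    simpa [Pa.al] using hx
  have hkd : A.kd T ⊆ A.R := by
    intro x hx
    have h : x ∈ A.R ∧ T.s x = 0 := by simpa [Pa.kd] using hx
    exact h.1
  -- the terms
  have hn1 : ∀ x ∈ A.al T ∪ ∅, ∀ y ∈ A.al T,
      0 ≤ pe (A.l x) (A.bud T x y - A.l x * A.ε x) (A.G T x y - Go x y) := by
    intro x hx y _
    have hx' : x ∈ A.al T := by simpa using hx
    exact (peb (A.l x) (A.bud T x y - A.l x * A.ε x) 0 _
      (H.le x (Finset.mem_union_left _ (hal x hx').1)).1).1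
  have hs1 : 0 ≤ ∑ x ∈ A.al T ∪ ∅, ∑ y ∈ A.al T,
      pe (A.l x) (A.bud T x y - A.l x * A.ε x) (A.G T x y - Go x y) :=
    Finset.sum_nonneg fun x hx => Finset.sum_nonneg fun y hy => hn1 x hx y hy
  have hs2 : 0 ≤ ∑ x ∈ A.al T,
      Real.exp (A.bum T x + A.lm * (mx (A.k T) (A.al T) (A.G T) Go x - A.εm)) :=
    Finset.sum_nonneg fun x _ => (Real.exp_pos _).le
  have hs3 : 0 < Real.exp (A.buM T + A.lM * (MM (A.k T) (A.al T) (A.G T) Go - A.εM)) :=
    Real.exp_pos _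
  have hU' : (∑ x ∈ A.al T ∪ ∅, ∑ y ∈ A.al T,
      pe (A.l x) (A.bud T x y - A.l x * A.ε x) (A.G T x y - Go x y)) + ∑ x ∈ A.al T,
      Real.exp (A.bum T x + A.lm * (mx (A.k T) (A.al T) (A.G T) Go x - A.εm)) +
      Real.exp (A.buM T + A.lM * (MM (A.k T) (A.al T) (A.G T) Go - A.εM)) < 1 := hU
  have hterm1 : ∀ x ∈ A.al T, ∀ y ∈ A.al T,
      pe (A.l x) (A.bud T x y - A.l x * A.ε x) (A.G T x y - Go x y) < 1 ∧
      Real.exp (A.bum T x + A.lm * (mx (A.k T) (A.al T) (A.G T) Go x - A.εm)) < 1 := by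
    intro x hx y hy
    constructor
    · have h1 : pe (A.l x) (A.bud T x y - A.l x * A.ε x) (A.G T x y - Go x y) ≤
          ∑ y ∈ A.al T, pe (A.l x) (A.bud T x y - A.l x * A.ε x) (A.G T x y - Go x y) :=
        Finset.single_le_sum (f := fun y => pe (A.l x) (A.bud T x y - A.l x * A.ε x)
          (A.G T x y - Go x y)) (fun z hz => hn1 x (by simpa using hx) z hz) hy
      have h2 : ∑ y ∈ A.al T, pe (A.l x) (A.bud T x y - A.l x * A.ε x) (A.G T x y - Go x y) ≤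
          ∑ x ∈ A.al T ∪ ∅, ∑ y ∈ A.al T,
            pe (A.l x) (A.bud T x y - A.l x * A.ε x) (A.G T x y - Go x y) :=
        Finset.single_le_sum (f := fun x => ∑ y ∈ A.al T,
          pe (A.l x) (A.bud T x y - A.l x * A.ε x) (A.G T x y - Go x y))
          (fun z hz => Finset.sum_nonneg fun y hy => hn1 z hz y hy) (by simpa using hx)
      linarith
    · have h1 : Real.exp (A.bum T x + A.lm * (mx (A.k T) (A.al T) (A.G T) Go x - A.εm)) ≤
          ∑ x ∈ A.al T,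
            Real.exp (A.bum T x + A.lm * (mx (A.k T) (A.al T) (A.G T) Go x - A.εm)) :=
        Finset.single_le_sum (f := fun x => Real.exp (A.bum T x +
          A.lm * (mx (A.k T) (A.al T) (A.G T) Go x - A.εm)))
          (fun z _ => (Real.exp_pos _).le) hx
      linarith
  have hk : ∀ y ∈ A.al T, 0 ≤ A.k T y := by
    intro y hy
    have h4 : A.k T y = if T.s y = 0 then A.e0 else A.η + (T.s y : ℝ) * (T.mb y).im := rfl
    rw [h4, if_neg (hal y hy).2]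
    have h5 := H.hR y (hal y hy).1
    have h6 : g₀ ≤ (T.mb y).im := by
      rw [hS.mb]
      exact h5.2.1
    have h7 : 0 ≤ (T.s y : ℝ) * (T.mb y).im := mul_nonneg (NNReal.coe_nonneg _) (by linarith)
    linarith
  have hbu := H.bu (A.kd T) hkd hS.num
  have hQ0 : A.Q \ ∅ = A.Q := Finset.sdiff_empty
  refine ⟨?_, ?_, ?_⟩
  · intro x hx y hy
    have hxR := (hal x hx).1
    have hyR := (hal y hy).1
    have hb : 0 ≤ A.bud T x y := by
      have h := hbu.1 x (Finset.mem_union_left _ hxR) y hyR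
      have h2 : A.bud T x y = 1 - A.v * ∑ c ∈ A.kd T, cs (A.l x) A.δ (A.p x c) (A.p y c) := rfl
      rw [h2]
      linarith
    have h1 := (peb (A.l x) (A.bud T x y) (A.ε x) (A.G T x y - Go x y)
      (H.le x (Finset.mem_union_left _ hxR)).1).2 hb (hterm1 x hx y hy).1
    have h2 := hS.go x (by simpa using hx) y hy
    rw [hQ0, if_neg (Finset.notMem_empty x)] at h2
    have h3 := H.jj x (Finset.mem_union_left _ hxR)
    rw [if_neg (Finset.disjoint_left.1 H.dis hxR)] at h3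
    calc ‖A.G T x y - A.G A.T₀ x y‖
        = ‖(A.G T x y - Go x y) + (Go x y - A.G A.T₀ x y)‖ := by
          congr 1
          ring
      _ ≤ ‖A.G T x y - Go x y‖ + ‖Go x y - A.G A.T₀ x y‖ := norm_add_le _ _
      _ ≤ 2 * A.ε x + (A.Q.card : ℝ) * (2 * Real.sqrt (A.dT * A.dT)) := add_le_add h1 h2
      _ ≤ A.J x := by linarith
  · intro x hx
    have hxR := (hal x hx).1
    have hb : 0 ≤ A.bum T x := by
      have h := hbu.2 x hxR
      have h2 : A.bum T x = 1 - A.v * ∑ c ∈ A.kd T, cm A.lm A.εm A.δ A.gb (A.p x c) := rfl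
      rw [h2]
      linarith
    have h1 := (hterm1 x hx x hx).2
    have h2 : A.bum T x + A.lm * (mx (A.k T) (A.al T) (A.G T) Go x - A.εm) < 0 := by
      by_contra hcon
      have h3 := Real.one_le_exp (not_lt.1 hcon)
      linarith
    have h3 : mx (A.k T) (A.al T) (A.G T) Go x ≤ A.εm := by
      by_contra hcon
      have h4 : 0 < A.lm * (mx (A.k T) (A.al T) (A.G T) Go x - A.εm) :=
        mul_pos hlm (by linarith [not_le.1 hcon])
      linarith
    have h5 := mink (A.al T) (A.k T) hk (fun y => A.G T x y - Go x y)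
      (fun y => Go x y - A.G A.T₀ x y)
    have h6 := hS.gm x hx
    rw [hQ0] at h6
    have h7 : ∑ y ∈ A.al T, A.k T y * ‖A.G T x y - Go x y + (Go x y - A.G A.T₀ x y)‖ ^ 2 =
        mx (A.k T) (A.al T) (A.G T) (A.G A.T₀) x := by
      rw [mx]
      refine Finset.sum_congr rfl fun y _ => ?_
      congr 3
      ring
    rw [h7] at h5
    have h8 : ∑ y ∈ A.al T, A.k T y * ‖Go x y - A.G A.T₀ x y‖ ^ 2 =
        mx (A.k T) (A.al T) Go (A.G A.T₀) x := rfl
    have h9 : ∑ y ∈ A.al T, A.k T y * ‖A.G T x y - Go x y‖ ^ 2 =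
        mx (A.k T) (A.al T) (A.G T) Go x := rfl
    rw [h8, h9] at h5
    have h10 : Real.sqrt (mx (A.k T) (A.al T) (A.G T) Go x) ≤ Real.sqrt A.εm :=
      Real.sqrt_le_sqrt h3
    linarith
  · have hcM : 0 ≤ cM A.lM A.εM A.δ A.gb := by
      rw [cM]
      have := Real.sqrt_nonneg A.εM
      positivity
    have hb : 0 ≤ A.buM T := by
      have h2 : A.buM T = 1 - A.v * ((A.kd T).card * cM A.lM A.εM A.δ A.gb) := rfl
      have h3 : ((A.kd T).card : ℝ) ≤ A.N := by exact_mod_cast hS.num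
      have h4 : (A.v : ℝ) * ((A.kd T).card * cM A.lM A.εM A.δ A.gb) ≤
          A.v * (A.N * cM A.lM A.εM A.δ A.gb) := by
        apply mul_le_mul_of_nonneg_left _ (NNReal.coe_nonneg _)
        exact mul_le_mul_of_nonneg_right h3 hcM
      have h5 := H.buM
      rw [h2]
      linarith
    have h1 : Real.exp (A.buM T + A.lM * (MM (A.k T) (A.al T) (A.G T) Go - A.εM)) < 1 := by
      linarith
    have h2 : A.buM T + A.lM * (MM (A.k T) (A.al T) (A.G T) Go - A.εM) < 0 := by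
      by_contra hcon
      have h3 := Real.one_le_exp (not_lt.1 hcon)
      linarith
    have h3 : MM (A.k T) (A.al T) (A.G T) Go ≤ A.εM := by
      by_contra hcon
      have h4 : 0 < A.lM * (MM (A.k T) (A.al T) (A.G T) Go - A.εM) :=
        mul_pos hlM (by linarith [not_le.1 hcon])
      linarith
    have hMM : ∀ G₁ G₂ : Matrix X X ℂ, MM (A.k T) (A.al T) G₁ G₂ =
        ∑ z ∈ A.al T ×ˢ A.al T, (A.k T z.1 * A.k T z.2) * ‖G₁ z.1 z.2 - G₂ z.1 z.2‖ ^ 2 := by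
      intro G₁ G₂
      rw [MM, Finset.sum_product]
      refine Finset.sum_congr rfl fun x _ => ?_
      rw [mx, Finset.mul_sum]
      refine Finset.sum_congr rfl fun y _ => ?_
      ring
    have h5 := mink (A.al T ×ˢ A.al T) (fun z => A.k T z.1 * A.k T z.2)
      (fun z hz => mul_nonneg (hk _ (Finset.mem_product.1 hz).1) (hk _ (Finset.mem_product.1 hz).2))
      (fun z => A.G T z.1 z.2 - Go z.1 z.2) (fun z => Go z.1 z.2 - A.G A.T₀ z.1 z.2)
    have h6 := hS.gM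
    rw [hQ0] at h6
    have h7 : ∑ z ∈ A.al T ×ˢ A.al T, (A.k T z.1 * A.k T z.2) *
        ‖A.G T z.1 z.2 - Go z.1 z.2 + (Go z.1 z.2 - A.G A.T₀ z.1 z.2)‖ ^ 2 =
        MM (A.k T) (A.al T) (A.G T) (A.G A.T₀) := by
      rw [hMM]
      refine Finset.sum_congr rfl fun z _ => ?_
      congr 3
      ring
    rw [h7, ← hMM, ← hMM] at h5
    have h10 : Real.sqrt (MM (A.k T) (A.al T) (A.G T) Go) ≤ Real.sqrt A.εM :=
      Real.sqrt_le_sqrt h3
    linarith

end Pool.Agent.ATT.H26
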